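import Pool.Agent.Z26.Atri.C

set_option autoImplicit false

namespace Pool.Agent.Results.MP_892330_gt.ExactlyFromTwo

open Set

/-- covering dimension at most `n`: every finite cover of `S` by open sets has a finite open
refinement covering `S` such that no point of `S` lies in more than `n + 1` of its members -/
def DimLE {X : Type} [TopologicalSpace X] (S : Set X) (n : ℕ) : Prop :=
  ∀ (m : ℕ) (U : Fin m → Set X), (∀ i, IsOpen (U i)) → S ⊆ ⋃ i, U i →
    ∃ (k : ℕ) (V : Fin k → Set X), (∀ j, IsOpen (V j)) ∧ S ⊆ ⋃ j, V j ∧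
      (∀ j, ∃ i, V j ⊆ U i) ∧ ∀ x ∈ S, {j : Fin k | x ∈ V j}.ncard ≤ n + 1

/-- `X` contains no triod: no subcontinuum `T` has a subcontinuum `Z` such that `T \ Z` is the
union of three nonempty sets that are mutually separated -/
def Atriodic (X : Type) [TopologicalSpace X] : Prop :=
  ¬ ∃ T Z A B C : Set X, IsCompact T ∧ IsConnected T ∧ IsCompact Z ∧ IsConnected Z ∧
    Z ⊆ T ∧ T \ Z = A ∪ B ∪ C ∧ A.Nonempty ∧ B.Nonempty ∧ C.Nonempty ∧
    Disjoint (closure A) B ∧ Disjoint A (closure B) ∧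
    Disjoint (closure A) C ∧ Disjoint A (closure C) ∧
    Disjoint (closure B) C ∧ Disjoint B (closure C)

/-- `K` is a continuum that is not the union of two proper subcontinua -/
def Indec {X : Type} [TopologicalSpace X] (K : Set X) : Prop :=
  IsCompact K ∧ IsConnected K ∧
    ∀ P Q : Set X, IsCompact P → IsConnected P → IsCompact Q → IsConnected Q →
      P ∪ Q = K → P = K ∨ Q = K

/-- For every `n ≥ 2`, every atriodic (Hausdorff) continuum of dimension `n` has an indecomposable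
subcontinuum of dimension `n`. Every infinite-dimensional atriodic continuum has, for each `n`, an
indecomposable subcontinuum of dimension more than `n`. For `n = 1` the arc is a counterexample:
it is atriodic of dimension one and its indecomposable subcontinua are zero-dimensional. -/
theorem result :
    (∀ n : ℕ, 2 ≤ n → ∀ (X : Type) [TopologicalSpace X] [CompactSpace X] [T2Space X]
      [ConnectedSpace X], Atriodic X → DimLE (univ : Set X) n → ¬ DimLE (univ : Set X) (n - 1) →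
      ∃ K : Set X, Indec K ∧ DimLE K n ∧ ¬ DimLE K (n - 1)) ∧
    (∀ (X : Type) [TopologicalSpace X] [CompactSpace X] [T2Space X] [ConnectedSpace X],
      Atriodic X → (∀ n : ℕ, ¬ DimLE (univ : Set X) n) →
      ∀ n : ℕ, ∃ K : Set X, Indec K ∧ ¬ DimLE K n) ∧
    (Atriodic unitInterval ∧ DimLE (univ : Set unitInterval) 1 ∧
      ¬ DimLE (univ : Set unitInterval) 0 ∧
      ∀ K : Set unitInterval, Indec K → DimLE K 0) := by
  have tr : ∀ (X : Type) [TopologicalSpace X], Atriodic X → ∀ T : Set X,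
      ¬ Pool.Agent.Z26.Atri.Tr T := by
    rintro X _ t T ⟨t1, t2, Z, z1, z2, z3, A, B, C, a, b, c, e, l⟩
    simp only [← Set.disjoint_iff_inter_eq_empty] at l
    exact t ⟨T, Z, A, B, C, t1, t2, z2, z3, z1, e, a, b, c, l⟩
  have big : ∀ (X : Type) [TopologicalSpace X] [CompactSpace X] [T2Space X] [ConnectedSpace X],
      Atriodic X → ∀ n : ℕ, 1 ≤ n → ¬ DimLE (univ : Set X) n →
      ∃ K : Set X, Indec K ∧ IsClosed K ∧ ¬ DimLE K n := by
    intro X _ _ _ _ t n hn h
    obtain ⟨K, k1, k2, k3⟩ := Pool.Agent.Z26.Atri.main (tr X t) hn h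
    exact ⟨K, ⟨k1.1.isCompact, k1.2, fun P Q p1 p2 q1 q2 e => by_contra fun n =>
      k3 ⟨P, Q, ⟨p1.isClosed, p2⟩, ⟨q1.isClosed, q2⟩, e, not_or.1 n⟩⟩, k1.1, k2⟩
  refine ⟨fun n hn X _ _ _ _ t h1 h2 => ?_, fun X _ _ _ _ t h n => ?_, ?_, ?_, ?_, ?_⟩
  · obtain ⟨K, k1, k2, k3⟩ := big X t (n - 1) (by omega) h2
    exact ⟨K, k1, Pool.Agent.Z26.Atri.DD.sub h1 k2 k1.2.1.1, k3⟩
  · obtain ⟨K, k1, -, k3⟩ := big X t (n + 1) (by omega) (h _)
    refine ⟨K, k1, fun k => k3 fun m U u1 u2 => ?_⟩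
    obtain ⟨r, V, v1, v2, v3, v4⟩ := k m U u1 u2
    exact ⟨r, V, v1, v2, v3, fun x hx => (v4 x hx).trans (by omega)⟩
  · rintro ⟨T, Z, A, B, C, t1, t2, z2, z3, z1, e, a, b, c, l⟩
    simp only [Set.disjoint_iff_inter_eq_empty] at l
    exact Pool.Agent.Z26.Atri.arc_atriodic T ⟨t1, t2, Z, z1, z2, z3, A, B, C, a, b, c, e, l⟩
  · exact Pool.Agent.Z26.Atri.arc_dim
  · exact Pool.Agent.Z26.Atri.arc_not_dim
  · exact fun K hK => Pool.Agent.Z26.Atri.sub_dim
      (Pool.Agent.Z26.Atri.arc_ind hK.1 hK.2.1 hK.2.2) 0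

end Pool.Agent.Results.MP_892330_gt.ExactlyFromTwo
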